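import Pool.Agent.W2helper89.MC.Final

set_option autoImplicit false

universe u

namespace Pool.Agent.Results.MP_6072c5_lc.CountableModels

open Pool.Agent.Helper425.PA

/-- Every countable model `M` of Peano arithmetic has a cone of minimal covers: there is a degree
`c` of subsets of `M` such that every degree `b ≥ c` is a minimal cover of some degree. -/
theorem result (M : Type u) [CommSemiring M] [LinearOrder M] [PeanoModel M] [Countable M] :
    ∃ c : Degree M, ∀ b : Degree M, c ≤ b → ∃ a : Degree M, a ⋖ b :=
  Pool.Agent.W2helper89.MC.main M

end Pool.Agent.Results.MP_6072c5_lc.CountableModels
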